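import Pool.Agent.H64.MF.FSF
import Pool.Agent.H79.GP.GMA
import Pool.Agent.H79.ES.NSA
import Pool.Agent.H79.ES.NNA
import Pool.Agent.H79.ES.NCP
import Pool.Agent.H47.NM.CEX
import Pool.Agent.H47.PS.PRE

/-!
# [H44 NF Ups] families `F(d,k)`: summable critical points can be moved; Julia critical points are not preperiodic

PROOF of `up_tgF`. `v0 = ex d k x` is in the family (`fam_ex hk hkd hg : Fam d k v0`, H57/CF). `c` is not attracted (`not_att`, H79/ES/NSA, with `hT.1`), so `c ≠ ∞` (`inf_att`, H64/MF/GB), `c = c1` in the plane, `wv v0 c1 = 0` (`crit_coe` and `wv_pol`, as in ENF). `att_pers` (H79/ES) at infinity: `W ∈ 𝓝 ∞` attracted for all `v` near `v0`;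
`R` with `(z : OnePoint ℂ) ∈ W` for `R < ‖z‖` (copy from `good_ball`, H64/MF/GB); `D = {z | R < ‖z‖}`. `fs_hole` (H79/GP/GMA) with `D`: `v1 ∈ Dm d k`, `c0`, `ρ2`, and for every `R' > 0` a radius `r < R'` and `v2 = v0 + s • v1`, `closedBall v2 (c0 r) ⊆ closedBall v0 r`, such that the critical points of `v2` in `ball c1 ρ2` reach `D`.
`v1 = ex d k u1` (`dm_ex`, H57/CF/ENF), so `v2 = ex d k (x + s • u1)` (`ex_lin`, H64/MF/GB) and `‖s • u1‖ ≤ ‖ex d k (s • u1)‖ = ‖v2 - v0‖ ≤ r` (`ex_nrm`, `v2 ∈ closedBall v2 (c0 r)`). `na_up` (H79/ES/NNA): `ε1`. `crit_pers` (H79/ES/NCP): for `v2` near `v0` there is a critical point `z` with `chord c z < ε1` in the image of `ball c1 ρ2`;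
it reaches `D` (`reach_rat`, as in GMA / HLC), so it is attracted (`att_iter`, H32/BT). `IsCoprime` and degree: `ex_near` (H57/CF/UPF).
PROOF of `not_preF`: as `not_pre` (H47/PS/PRE) with `P1F` (H57/CF/ENF: `AR (ex d k x)`) in the place of the chart; `tg_of_exp` (H47/NM/CEX) and `up_tgF`.
-/

set_option autoImplicit false

open Filter Topology Polynomial Metric Set MeasureTheory

namespace Pool.Agent.H44.NF

open Pool.Agent.H44.Fatou Pool.Agent.H32.BT Pool.Agent.H79.Eul Pool.Agent.H79.Par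
open Pool.Agent.H35.EX Pool.Agent.H44.RR Pool.Agent.H56.HR Pool.Agent.H44.RC Pool.Agent.H47.RJ
open Pool.Agent.H47.NM Pool.Agent.H47.NN Pool.Agent.H44.ND Pool.Agent.H79.ES Pool.Agent.H57.CF
open Pool.Agent.H64.MF

variable {d k : ℕ}

theorem ex_nrm (u : Em d k) (hkd : k ≤ d) : ‖u‖ ≤ ‖ex d k u‖ := by
  rw [Prod.norm_def, Prod.norm_def]
  refine max_le_max le_rfl ?_
  rw [pi_norm_le_iff_of_nonneg (norm_nonneg _)]
  intro i
  have hi : (i : ℕ) < d + 1 := by have := i.2; omega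
  have h2 := norm_le_pi_norm (ex d k u).2 ⟨i, hi⟩
  have h3 : (ex d k u).2 ⟨i, hi⟩ = u.2 i := by
    show (if h : (i : ℕ) < d - k + 1 then u.2 ⟨i, h⟩ else 0) = _
    rw [dif_pos i.2]
  rw [h3] at h2
  exact h2

/-- a critical point whose value is typical can be captured in the family -/
theorem up_tgF (hd : 2 ≤ d) (hk : 2 ≤ k) (hkd : k ≤ d) {x : Em d k} (hg : GenM d k (pol x.1) (pol x.2))
    {c : OnePoint ℂ} (hc : IsCrit (Rf (ex d k x)) c)
    (hT : Pool.Agent.H44.RG.TG (Rf (ex d k x)) (Rf (ex d k x) c)) : UpF d k x := by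
  intro ε hε
  have hF := Pool.Agent.H47.NM.fam_ex hk hkd hg
  have hcop := ex_cop hg.cop
  have hdeg := ex_deg (genM_deg hg)
  have hna : ¬ Att (Rf (ex d k x)) c := not_att hd hcop hdeg hT.1
  have hinf := (inf_att hk hkd hg).2
  induction c using OnePoint.rec with
  | infty => exact absurd hinf hna
  | coe c1 =>
    have hw : wv (ex d k x) c1 = 0 := by
      rw [Pool.Agent.H61.TT.wv_pol]
      exact crit_coe hc
    obtain ⟨W, hW, hWv⟩ := att_pers hd hcop hdeg hinf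
    obtain ⟨R, hRp, hRW⟩ : ∃ R : ℝ, 0 < R ∧ ∀ z : ℂ, R < ‖z‖ → (z : OnePoint ℂ) ∈ W := by
      have h1 : Tendsto (fun z : ℂ => (z : OnePoint ℂ)) (Filter.cocompact ℂ)
          (𝓝 OnePoint.infty) := by
        rw [← Filter.coclosedCompact_eq_cocompact]
        exact OnePoint.tendsto_coe_infty
      have h2 : ∀ᶠ z : ℂ in Filter.cocompact ℂ, (z : OnePoint ℂ) ∈ W := h1.eventually hW
      rw [← Metric.cobounded_eq_cocompact,
        (Metric.hasBasis_cobounded_compl_closedBall (0 : ℂ)).eventually_iff] at h2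
      obtain ⟨R0, -, hR0⟩ := h2
      refine ⟨max R0 1, lt_of_lt_of_le one_pos (le_max_right _ _), fun z hz => hR0 ?_⟩
      intro h3
      exact (mem_closedBall_zero_iff.1 h3).not_gt ((le_max_left _ _).trans_lt hz)
    have hDo : IsOpen {z : ℂ | R < ‖z‖} := isOpen_lt continuous_const continuous_norm
    have hDn : {z : ℂ | R < ‖z‖}.Nonempty := by
      refine ⟨((R + 1 : ℝ) : ℂ), ?_⟩
      show R < ‖((R + 1 : ℝ) : ℂ)‖
      rw [Complex.norm_real, Real.norm_of_nonneg (by linarith)]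
      linarith
    obtain ⟨v1, hv1, c0, hc0, ρ2, hρ2, hh⟩ :=
      Pool.Agent.H79.GP.fs_hole hd hF hw hT hDo hDn
    obtain ⟨u1, hu1⟩ := dm_ex hk hkd hv1
    obtain ⟨ε1, hε1, hup⟩ := na_up hd hcop hdeg hna
    have hWc : {z : OnePoint ℂ | chord (c1 : OnePoint ℂ) z < ε1} ∩
        ((↑) : ℂ → OnePoint ℂ) '' ball c1 ρ2 ∈ 𝓝 (c1 : OnePoint ℂ) :=
      inter_mem (ch_ball _ hε1)
        ((OnePoint.isOpenMap_coe _ isOpen_ball).mem_nhds ⟨c1, mem_ball_self hρ2, rfl⟩)
    obtain ⟨ε2, hε2, hb2⟩ := Metric.eventually_nhds_iff_ball.1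
      ((crit_pers hd hcop hdeg hc hWc).and hWv)
    obtain ⟨ε3, hε3, hb3⟩ := Metric.eventually_nhds_iff_ball.1
      (ex_near hd hg.cop (genM_deg hg))
    obtain ⟨r, hr, hrlt, v2, ⟨s, hs⟩, hsub, hz⟩ := hh (min (min ε ε1) (min ε2 ε3))
      (lt_min (lt_min hε hε1) (lt_min hε2 hε3))
    have r1 : r < ε := hrlt.trans_le ((min_le_left _ _).trans (min_le_left _ _))
    have r2 : r < ε1 := hrlt.trans_le ((min_le_left _ _).trans (min_le_right _ _))
    have r3 : r < ε2 := hrlt.trans_le ((min_le_right _ _).trans (min_le_left _ _))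
    have r4 : r < ε3 := hrlt.trans_le ((min_le_right _ _).trans (min_le_right _ _))
    obtain ⟨w, hwd⟩ : ∃ w, w = x + s • u1 := ⟨_, rfl⟩
    have hwv : ex d k w = v2 := by
      rw [hwd, ← ex_lin, hu1, hs]
    have hv2 : v2 ∈ closedBall v2 (c0 * r) := mem_closedBall_self (by positivity)
    have hv2r : ‖v2 - ex d k x‖ ≤ r := mem_closedBall_iff_norm.1 (hsub hv2)
    have hwx : ‖w - x‖ ≤ r := by
      have h1 : ex d k (w - x) = v2 - ex d k x := by
        have h2 := ex_lin x (w - x) 1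
        rw [one_smul, one_smul, add_sub_cancel, hwv] at h2
        rw [← h2, add_sub_cancel_left]
      calc ‖w - x‖ ≤ ‖ex d k (w - x)‖ := ex_nrm _ hkd
        _ ≤ r := by rw [h1]; exact hv2r
    have hwb : ∀ δ, r < δ → w ∈ ball x δ := fun δ hδ =>
      mem_ball_iff_norm.2 (hwx.trans_lt hδ)
    have hvb : ∀ δ, r < δ → v2 ∈ ball (ex d k x) δ := fun δ hδ =>
      mem_ball_iff_norm.2 (hv2r.trans_lt hδ)
    obtain ⟨h1, h2⟩ := hb3 w (hwb _ r4)
    obtain ⟨⟨z, ⟨hz1, z1, hz2, rfl⟩, hz3⟩, h4⟩ := hb2 v2 (hvb _ r3)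
    refine ⟨w, hwb _ r1, h1, h2, ?_⟩
    rw [hwv]
    have hcop2 : IsCoprime (pol v2.1) (pol v2.2) := by
      rw [← hwv]
      exact ex_cop h1
    have hw2 : wv v2 z1 = 0 := by
      rw [Pool.Agent.H61.TT.wv_pol]
      exact crit_coe hz3
    obtain ⟨n, w', hw'D, hreach⟩ := hz v2 hv2 z1 hz2 hw2
    have h3 : (Rf v2)^[n] (z1 : OnePoint ℂ) = (w' : OnePoint ℂ) := by
      refine reach_rat (pol_deg _) (pol_deg _) n z1 w' ?_
      rw [Pool.Agent.H79.Eul.cf_pol, Pool.Agent.H79.Eul.cf_pol]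
      exact hreach
    have h5 : Att (Rf v2) ((Rf v2)^[n] (z1 : OnePoint ℂ)) := by
      rw [h3]
      exact h4 _ (hRW w' hw'D)
    exact hup v2 (hvb _ r2) _ hz1 hz3 ((att_iter (rat_continuous hcop2) _ n).1 h5)

/-- Julia critical points of locally maximal maps of the family are not preperiodic -/
theorem not_preF (hd : 2 ≤ d) (hk : 2 ≤ k) (hkd : k ≤ d) {x : Em d k} (hg : GenM d k (pol x.1) (pol x.2))
    (hup : ¬ UpF d k x) {c : OnePoint ℂ} (hc : IsCrit (Rf (ex d k x)) c) (hJ : c ∈ JS (Rf (ex d k x))) :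
    ∀ m n : ℕ, m < n → (Rf (ex d k x))^[m] c ≠ (Rf (ex d k x))^[n] c := by
  intro m n hmn he
  have hcop := ex_cop hg.cop
  have hdeg := ex_deg (genM_deg hg)
  have hAR := (P1F hd hk hkd hg hup).1
  have hf : Continuous (Rf (ex d k x)) := rat_continuous hcop
  obtain ⟨a, ha⟩ : ∃ a, a = (Rf (ex d k x))^[m] c := ⟨_, rfl⟩
  have hper : (Rf (ex d k x))^[n - m] a = a := by
    rw [ha, ← Function.iterate_add_apply]
    have h1 : n - m + m = n := by omega
    rw [h1, he]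
  have hJa : ∀ i : ℕ, (Rf (ex d k x))^[i] a ∈ JS (Rf (ex d k x)) := by
    intro i
    rw [ha, ← Function.iterate_add_apply]
    intro h
    exact hJ ((fs_iff (by omega) hcop hdeg (i + m) c).1 h)
  have hR : ∀ i : ℕ, ∃ (ρ κ : ℝ) (g : OnePoint ℂ → OnePoint ℂ),
      Rep (Rf (ex d k x))^[n - m] ((Rf (ex d k x))^[i] a) ρ κ g := by
    intro i
    have h1 : (Rf (ex d k x))^[n - m] ((Rf (ex d k x))^[i] a) = (Rf (ex d k x))^[i] a := by
      rw [← Function.iterate_add_apply, Nat.add_comm, Function.iterate_add_apply, hper]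
    rcases hAR (n - m) (by omega) _ h1 with h2 | h2
    · exact absurd h2.2 (hJa i)
    · exact h2
  have hE := Pool.Agent.H47.PS.cyc_expd hf (by omega : 0 < n - m) hper hR
  obtain ⟨c2, hc2, hT⟩ := tg_of_exp hd hcop hdeg hc hE (m := m)
    ⟨0, Finset.mem_coe.2 (Finset.mem_range.2 (by omega)), by
      show a = _
      exact ha⟩
  exact hup (up_tgF hd hk hkd hg hc2 hT)

end Pool.Agent.H44.NF
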